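import Pool.Agent.Helper77.KZ.Defs

/-! KZ-2: swap identity, co-stuck, nested stuck sets. -/

set_option autoImplicit false

namespace Pool.Agent.Helper77.KZ

open Finset
open scoped Pointwise

variable {n : ℕ}

theorem swp_cov_card (g : ZMod n → ℤ) (A : Finset (ZMod n)) (s : ZMod n) :
    ((cov g A s).card : ℤ) = ∑ a ∈ A, if g (s - a) ≠ 0 then (1 : ℤ) else 0 := by
  unfold cov
  rw [Finset.card_filter]
  push_cast
  rfl

theorem swp_cocov_card (g : ZMod n → ℤ) (A : Finset (ZMod n)) (y : ZMod n) :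
    ((cocov g A y).card : ℤ) = ∑ a ∈ A, if g (a - y) ≠ 0 then (1 : ℤ) else 0 := by
  unfold cocov
  rw [Finset.card_filter]
  push_cast
  rfl

theorem swap [NeZero n] (g : ZMod n → ℤ) (A D : Finset (ZMod n)) :
    ∑ s, ((cov g A s).card : ℤ) * EE g D s = ∑ y, ((cocov g D y).card : ℤ) * CE g A y := by
  have h1 : ∑ s, ((cov g A s).card : ℤ) * EE g D s =
      ∑ a ∈ A, ∑ d ∈ D, ∑ s, (if g (s - a) ≠ 0 then (1 : ℤ) else 0) * g (s - d) := by
    have : ∀ s : ZMod n, ((cov g A s).card : ℤ) * EE g D s =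
        ∑ a ∈ A, ∑ d ∈ D, (if g (s - a) ≠ 0 then (1 : ℤ) else 0) * g (s - d) := by
      intro s
      rw [swp_cov_card, EE, Finset.sum_mul_sum]
    rw [Finset.sum_congr rfl (fun s _ => this s), Finset.sum_comm]
    refine Finset.sum_congr rfl fun a _ => ?_
    rw [Finset.sum_comm]
  have h2 : ∑ y, ((cocov g D y).card : ℤ) * CE g A y =
      ∑ a ∈ A, ∑ d ∈ D, ∑ y, (if g (d - y) ≠ 0 then (1 : ℤ) else 0) * g (a - y) := by
    have : ∀ y : ZMod n, ((cocov g D y).card : ℤ) * CE g A y =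
        ∑ a ∈ A, ∑ d ∈ D, (if g (d - y) ≠ 0 then (1 : ℤ) else 0) * g (a - y) := by
      intro y
      rw [swp_cocov_card, CE, Finset.sum_mul_sum, Finset.sum_comm]
    rw [Finset.sum_congr rfl (fun s _ => this s), Finset.sum_comm]
    refine Finset.sum_congr rfl fun a _ => ?_
    rw [Finset.sum_comm]
  rw [h1, h2]
  refine Finset.sum_congr rfl fun a _ => Finset.sum_congr rfl fun d _ => ?_
  refine Fintype.sum_equiv (Equiv.subLeft (a + d)) _ _ fun s => ?_
  have e1 : d - (a + d - s) = s - a := by ring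
  have e2 : a - (a + d - s) = s - d := by ring
  simp only [Equiv.subLeft_apply, e1, e2]

theorem swap' [NeZero n] (g : ZMod n → ℤ) (A D : Finset (ZMod n)) :
    ∑ y, ((cocov g A y).card : ℤ) * CE g D y = ∑ s, ((cov g D s).card : ℤ) * EE g A s :=
  (swap g D A).symm

theorem swp_sum_EE [NeZero n] (g : ZMod n → ℤ) (U : Finset (ZMod n)) :
    ∑ s, EE g U s = U.card * ∑ i, g i := by
  unfold EE
  rw [Finset.sum_comm]
  have : ∀ l ∈ U, ∑ s, g (s - l) = ∑ i, g i := by
    intro l _
    exact Fintype.sum_equiv (Equiv.subRight l) _ _ fun s => rfl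
  rw [Finset.sum_congr rfl this, Finset.sum_const, nsmul_eq_mul]

theorem swp_sum_CE [NeZero n] (g : ZMod n → ℤ) (U : Finset (ZMod n)) :
    ∑ s, CE g U s = U.card * ∑ i, g i := by
  unfold CE
  rw [Finset.sum_comm]
  have : ∀ l ∈ U, ∑ s, g (l - s) = ∑ i, g i := by
    intro l _
    exact Fintype.sum_equiv (Equiv.subLeft l) _ _ fun s => rfl
  rw [Finset.sum_congr rfl this, Finset.sum_const, nsmul_eq_mul]

theorem swp_sum_cov [NeZero n] (g : ZMod n → ℤ) (U : Finset (ZMod n)) :
    ∑ s, ((cov g U s).card : ℤ) = ∑ y, ((cocov g U y).card : ℤ) := by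
  simp_rw [swp_cov_card, swp_cocov_card]
  rw [Finset.sum_comm, Finset.sum_comm (s := univ)]
  refine Finset.sum_congr rfl fun l _ => ?_
  refine Fintype.sum_equiv (Equiv.subLeft (l + l)) _ _ fun s => ?_
  have e1 : l - (l + l - s) = s - l := by ring
  simp only [Equiv.subLeft_apply, e1]

theorem swp_EE_of_not_meets {g : ZMod n → ℤ} {U : Finset (ZMod n)} {s : ZMod n} (h : ¬ Meets g U s) :
    EE g U s = 0 := by
  unfold EE
  refine Finset.sum_eq_zero fun l hl => ?_
  by_contra h1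
  exact h ⟨l, hl, h1⟩

theorem swp_CE_of_not {g : ZMod n → ℤ} {U : Finset (ZMod n)} {y : ZMod n}
    (h : ¬ ∃ a ∈ U, g (a - y) ≠ 0) : CE g U y = 0 := by
  unfold CE
  refine Finset.sum_eq_zero fun l hl => ?_
  by_contra h1
  exact h ⟨l, hl, h1⟩

theorem stuck_card [NeZero n] {g : ZMod n → ℤ} {U : Finset (ZMod n)} (h : Stuck g U) :
    (((U + TT g).card : ℕ) : ℤ) = U.card * ∑ i, g i := by
  rw [← swp_sum_EE]
  have h1 : ∀ s : ZMod n, EE g U s = if s ∈ U + TT g then (1 : ℤ) else 0 := by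
    intro s
    by_cases hs : Meets g U s
    · rw [h s hs, if_pos]
      obtain ⟨l, hl, h2⟩ := hs
      rw [Finset.mem_add]
      exact ⟨l, hl, s - l, by simp [TT, h2], by ring⟩
    · rw [swp_EE_of_not_meets hs, if_neg]
      intro h2
      rw [Finset.mem_add] at h2
      obtain ⟨l, hl, t, ht, rfl⟩ := h2
      apply hs
      refine ⟨l, hl, ?_⟩
      have e : l + t - l = t := by ring
      rw [e]
      simpa [TT] using ht
  rw [Finset.sum_congr rfl (fun s _ => h1 s)]
  simp

theorem swp_sum_sq [NeZero n] (g : ZMod n → ℤ) (A : Finset (ZMod n)) :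
    ∑ s, EE g A s * EE g A s = ∑ y, CE g A y * CE g A y := by
  have h1 : ∑ s, EE g A s * EE g A s = ∑ a ∈ A, ∑ b ∈ A, ∑ s, g (s - a) * g (s - b) := by
    have : ∀ s : ZMod n, EE g A s * EE g A s = ∑ a ∈ A, ∑ b ∈ A, g (s - a) * g (s - b) := by
      intro s
      rw [EE, Finset.sum_mul_sum]
    rw [Finset.sum_congr rfl (fun s _ => this s), Finset.sum_comm]
    refine Finset.sum_congr rfl fun a _ => ?_
    rw [Finset.sum_comm]
  have h2 : ∑ y, CE g A y * CE g A y = ∑ a ∈ A, ∑ b ∈ A, ∑ y, g (a - y) * g (b - y) := by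
    have : ∀ y : ZMod n, CE g A y * CE g A y = ∑ a ∈ A, ∑ b ∈ A, g (a - y) * g (b - y) := by
      intro y
      rw [CE, Finset.sum_mul_sum]
    rw [Finset.sum_congr rfl (fun s _ => this s), Finset.sum_comm]
    refine Finset.sum_congr rfl fun a _ => ?_
    rw [Finset.sum_comm]
  rw [h1, h2]
  refine Finset.sum_congr rfl fun a _ => Finset.sum_congr rfl fun b _ => ?_
  refine Fintype.sum_equiv (Equiv.subLeft (a + b)) _ _ fun s => ?_
  have e1 : a - (a + b - s) = s - b := by ring
  have e2 : b - (a + b - s) = s - a := by ring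
  simp only [Equiv.subLeft_apply, e1, e2]
  ring

theorem costuck [NeZero n] {g : ZMod n → ℤ} {A : Finset (ZMod n)} (h : Stuck g A) (y : ZMod n)
    (hy : ∃ a ∈ A, g (a - y) ≠ 0) : CE g A y = 1 := by
  have hE : ∀ s, EE g A s * EE g A s = EE g A s := by
    intro s
    by_cases hs : Meets g A s
    · rw [h s hs]; norm_num
    · rw [swp_EE_of_not_meets hs]; norm_num
  have h1 : ∑ y, CE g A y * CE g A y = ∑ y, CE g A y := by
    rw [← swp_sum_sq, Finset.sum_congr rfl (fun s _ => hE s), swp_sum_EE, swp_sum_CE]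
  have hC : ∀ y, CE g A y = 0 ∨ CE g A y = 1 := by
    have h2 : ∑ y, (CE g A y * CE g A y - CE g A y) = 0 := by
      rw [Finset.sum_sub_distrib, h1, sub_self]
    have h3 : ∀ y ∈ (univ : Finset (ZMod n)), 0 ≤ CE g A y * CE g A y - CE g A y := by
      intro y _
      rcases le_or_gt (CE g A y) 0 with h | h
      · nlinarith
      · nlinarith
    intro y
    have h4 := (Finset.sum_eq_zero_iff_of_nonneg h3).1 h2 y (Finset.mem_univ y)
    have h5 : CE g A y * (CE g A y - 1) = 0 := by linarith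
    rcases mul_eq_zero.1 h5 with h6 | h6
    · left; exact h6
    · right; linarith
  have h2 := swap g A A
  have h3 : ∀ s : ZMod n, ((cov g A s).card : ℤ) * EE g A s = (cov g A s).card := by
    intro s
    by_cases hs : Meets g A s
    · rw [h s hs, mul_one]
    · have : cov g A s = ∅ := by
        unfold cov
        rw [Finset.filter_eq_empty_iff]
        intro l hl h1
        exact hs ⟨l, hl, h1⟩
      rw [this]; simp
  rw [Finset.sum_congr rfl (fun s _ => h3 s), swp_sum_cov] at h2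
  have h4 : ∑ y, ((cocov g A y).card : ℤ) * (1 - CE g A y) = 0 := by
    simp_rw [mul_sub, mul_one]
    rw [Finset.sum_sub_distrib, h2, sub_self]
  have h5 : ∀ y ∈ (univ : Finset (ZMod n)), 0 ≤ ((cocov g A y).card : ℤ) * (1 - CE g A y) := by
    intro y _
    refine mul_nonneg (by positivity) ?_
    rcases hC y with h6 | h6 <;> rw [h6] <;> norm_num
  have h6 := (Finset.sum_eq_zero_iff_of_nonneg h5).1 h4 y (Finset.mem_univ y)
  rcases mul_eq_zero.1 h6 with h7 | h7
  · exfalso
    obtain ⟨a, ha, h8⟩ := hy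
    have h9 : (cocov g A y).card = 0 := by exact_mod_cast h7
    rw [Finset.card_eq_zero] at h9
    have : a ∈ cocov g A y := by simp [cocov, ha, h8]
    rw [h9] at this
    simp at this
  · linarith

theorem swp_EE_sdiff (g : ZMod n → ℤ) {A U : Finset (ZMod n)} (hAU : A ⊆ U) (s : ZMod n) :
    EE g (U \ A) s = EE g U s - EE g A s := by
  unfold EE
  rw [← Finset.sum_sdiff hAU]
  ring

theorem nested [NeZero n] {g : ZMod n → ℤ} {A U : Finset (ZMod n)} (hAU : A ⊆ U) (hA : Stuck g A)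
    (hU : Stuck g U) :
    (∀ y, ∀ a ∈ A, ∀ d ∈ U \ A, g (a - y) ≠ 0 → g (d - y) ≠ 0 → False) ∧
    (∀ s, ∀ a ∈ A, ∀ d ∈ U \ A, g (s - a) ≠ 0 → g (s - d) ≠ 0 → False) ∧
    Stuck g (U \ A) := by
  have hD : ∀ s, Meets g A s → EE g (U \ A) s = 0 := by
    rintro s ⟨l, hl, h1⟩
    rw [swp_EE_sdiff g hAU, hA s ⟨l, hl, h1⟩, hU s ⟨l, hAU hl, h1⟩, sub_self]
  have h1 : ∀ y, ∀ a ∈ A, ∀ d ∈ U \ A, g (a - y) ≠ 0 → g (d - y) ≠ 0 → False := by
    have h2 := swap g A (U \ A)
    have h3 : ∑ s, ((cov g A s).card : ℤ) * EE g (U \ A) s = 0 := by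
      refine Finset.sum_eq_zero fun s _ => ?_
      by_cases hs : Meets g A s
      · rw [hD s hs, mul_zero]
      · have : cov g A s = ∅ := by
          unfold cov
          rw [Finset.filter_eq_empty_iff]
          intro l hl h1
          exact hs ⟨l, hl, h1⟩
        rw [this]; simp
    rw [h3] at h2
    have h4 : ∀ y ∈ (univ : Finset (ZMod n)), 0 ≤ ((cocov g (U \ A) y).card : ℤ) * CE g A y := by
      intro y _
      refine mul_nonneg (by positivity) ?_
      by_cases hy : ∃ a ∈ A, g (a - y) ≠ 0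
      · rw [costuck hA y hy]; norm_num
      · rw [swp_CE_of_not hy]
    intro y a ha d hd h5 h6
    have h7 := (Finset.sum_eq_zero_iff_of_nonneg h4).1 h2.symm y (Finset.mem_univ y)
    rw [costuck hA y ⟨a, ha, h5⟩, mul_one] at h7
    have h9 : (cocov g (U \ A) y).card = 0 := by exact_mod_cast h7
    rw [Finset.card_eq_zero] at h9
    have : d ∈ cocov g (U \ A) y := by
      unfold cocov
      rw [Finset.mem_filter]
      exact ⟨hd, h6⟩
    rw [h9] at this
    simp at this
  have h2 : ∀ s, ∀ a ∈ A, ∀ d ∈ U \ A, g (s - a) ≠ 0 → g (s - d) ≠ 0 → False := by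
    have h2 := swap' g A (U \ A)
    have h3 : ∑ y, ((cocov g A y).card : ℤ) * CE g (U \ A) y = 0 := by
      refine Finset.sum_eq_zero fun y _ => ?_
      by_cases hy : ∃ a ∈ A, g (a - y) ≠ 0
      · obtain ⟨a, ha, h5⟩ := hy
        rw [swp_CE_of_not, mul_zero]
        rintro ⟨d, hd, h6⟩
        exact h1 y a ha d hd h5 h6
      · have : cocov g A y = ∅ := by
          unfold cocov
          rw [Finset.filter_eq_empty_iff]
          intro l hl h1
          exact hy ⟨l, hl, h1⟩
        rw [this]; simp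
    rw [h3] at h2
    have h4 : ∀ s ∈ (univ : Finset (ZMod n)), 0 ≤ ((cov g (U \ A) s).card : ℤ) * EE g A s := by
      intro s _
      refine mul_nonneg (by positivity) ?_
      by_cases hs : Meets g A s
      · rw [hA s hs]; norm_num
      · rw [swp_EE_of_not_meets hs]
    intro s a ha d hd h5 h6
    have h7 := (Finset.sum_eq_zero_iff_of_nonneg h4).1 h2.symm s (Finset.mem_univ s)
    rw [hA s ⟨a, ha, h5⟩, mul_one] at h7
    have h9 : (cov g (U \ A) s).card = 0 := by exact_mod_cast h7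
    rw [Finset.card_eq_zero] at h9
    have : d ∈ cov g (U \ A) s := by
      unfold cov
      rw [Finset.mem_filter]
      exact ⟨hd, h6⟩
    rw [h9] at this
    simp at this
  refine ⟨h1, h2, ?_⟩
  rintro s ⟨d, hd, h5⟩
  have h6 : ¬ Meets g A s := by
    rintro ⟨a, ha, h7⟩
    exact h2 s a ha d hd h7 h5
  rw [swp_EE_sdiff g hAU, swp_EE_of_not_meets h6, sub_zero]
  exact hU s ⟨d, (Finset.mem_sdiff.1 hd).1, h5⟩

end Pool.Agent.Helper77.KZ
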